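import Pool.Agent.H53.Interp

namespace Pool.Agent.H53

open FirstOrder Set

section Box

variable {G A B : Type*} [Group G] [Group A] [Group B] (e : G ≃* A × B)

/-- combine two tuples -/
def comb {β : Type*} (x : β → A) (y : β → B) : β → G := fun b => e.symm (x b, y b)

theorem term_fst {β : Type*} (t : groupLang.Term β) (v : β → G) :
    (e (t.realize v)).1 = t.realize (fun b => (e (v b)).1) := by
  induction t with
  | var b => rfl
  | func f ts ih =>
    cases f with
    | one => simp [Language.Term.realize, Language.Structure.funMap]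
    | inv => simp [Language.Term.realize, Language.Structure.funMap, ih]
    | mul => simp [Language.Term.realize, Language.Structure.funMap, ih]

theorem term_snd {β : Type*} (t : groupLang.Term β) (v : β → G) :
    (e (t.realize v)).2 = t.realize (fun b => (e (v b)).2) := by
  induction t with
  | var b => rfl
  | func f ts ih =>
    cases f with
    | one => simp [Language.Term.realize, Language.Structure.funMap]
    | inv => simp [Language.Term.realize, Language.Structure.funMap, ih]
    | mul => simp [Language.Term.realize, Language.Structure.funMap, ih]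

/-- the section of a formula over a tuple of first coordinates -/
def sec {β : Type*} {n : ℕ} (φ : groupLang.BoundedFormula β n)
    (p : (β → A) × (Fin n → A)) : Set ((β → B) × (Fin n → B)) :=
  {q | φ.Realize (comb e p.1 q.1) (comb e p.2 q.2)}

theorem finite_sec {β : Type*} {n : ℕ} (φ : groupLang.BoundedFormula β n) :
    (Set.range (sec e φ)).Finite := by
  induction φ with
  | falsum =>
    refine (Set.finite_singleton ∅).subset ?_
    rintro _ ⟨p, rfl⟩
    rfl
  | @equal n t₁ t₂ =>
    refine (Set.toFinite {∅, {q : (β → B) × (Fin n → B) |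
      t₁.realize (Sum.elim q.1 q.2) = t₂.realize (Sum.elim q.1 q.2)}}).subset ?_
    rintro _ ⟨p, rfl⟩
    have key : ∀ q : (β → B) × (Fin n → B), q ∈ sec e (Language.BoundedFormula.equal t₁ t₂) p ↔
        t₁.realize (Sum.elim p.1 p.2) = t₂.realize (Sum.elim p.1 p.2) ∧
        t₁.realize (Sum.elim q.1 q.2) = t₂.realize (Sum.elim q.1 q.2) := by
      intro q
      have h1 : (fun b => (e (Sum.elim (comb e p.1 q.1) (comb e p.2 q.2) b)).1) =
          Sum.elim p.1 p.2 := by
        funext b; rcases b with b | b <;> simp [comb]
      have h2 : (fun b => (e (Sum.elim (comb e p.1 q.1) (comb e p.2 q.2) b)).2) =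
          Sum.elim q.1 q.2 := by
        funext b; rcases b with b | b <;> simp [comb]
      show t₁.realize (Sum.elim (comb e p.1 q.1) (comb e p.2 q.2)) =
        t₂.realize (Sum.elim (comb e p.1 q.1) (comb e p.2 q.2)) ↔ _
      rw [← e.injective.eq_iff, Prod.ext_iff, term_fst, term_fst, term_snd, term_snd, h1, h2]
    by_cases h : t₁.realize (Sum.elim p.1 p.2) = t₂.realize (Sum.elim p.1 p.2)
    · right
      ext q
      rw [key q]
      simp [h]
    · left
      ext q
      rw [key q]
      simp [h]
  | rel R ts => exact R.elim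
  | @imp n φ ψ ih1 ih2 =>
    refine (Set.Finite.image2 (fun s t => sᶜ ∪ t) ih1 ih2).subset ?_
    rintro _ ⟨p, rfl⟩
    refine ⟨sec e φ p, ⟨p, rfl⟩, sec e ψ p, ⟨p, rfl⟩, ?_⟩
    ext q
    simp only [mem_union, mem_compl_iff, sec, mem_ofPred_eq, Language.BoundedFormula.realize_imp]
    tauto
  | @all n φ ih =>
    let F : Set (Set ((β → B) × (Fin (n + 1) → B))) → Set ((β → B) × (Fin n → B)) :=
      fun T => {q | ∀ s ∈ T, ∀ z : B, ((q.1, Fin.snoc q.2 z) : (β → B) × (Fin (n + 1) → B)) ∈ s}
    refine (ih.finite_subsets.image F).subset ?_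
    rintro _ ⟨p, rfl⟩
    refine ⟨Set.range (fun z : A => sec e φ (p.1, Fin.snoc p.2 z)), ?_, ?_⟩
    · rintro _ ⟨z, rfl⟩
      exact ⟨_, rfl⟩
    · have hs : ∀ (q : (β → B) × (Fin n → B)) (a : A) (b : B),
          comb e (Fin.snoc p.2 a : Fin (n + 1) → A) (Fin.snoc q.2 b : Fin (n + 1) → B) =
          Fin.snoc (comb e p.2 q.2) (e.symm (a, b)) := by
        intro q a b
        funext i
        refine Fin.lastCases ?_ (fun i => ?_) i
        · simp [comb]
        · simp [comb]
      ext q
      simp only [F, sec, mem_ofPred_eq, mem_range, forall_exists_index, forall_apply_eq_imp_iff,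
        Language.BoundedFormula.realize_all]
      constructor
      · intro h x
        have := h (e x).1 (e x).2
        rw [hs q (e x).1 (e x).2] at this
        simpa using this
      · intro h a b
        rw [hs q a b]
        exact h _

/-- A definable (with parameters) set of pairs `(u, v)` in a group `G ≃ A × B` has only finitely
many sections, where a section is the set of `y : B` with `((a, 1), (1, y))` in the set. -/
theorem finite_sections (S : Set (Fin 2 → G)) (hS : (Set.univ : Set G).Definable groupLang S) :
    (Set.range (fun a : A => {y : B | ![e.symm (a, 1), e.symm (1, y)] ∈ S})).Finite := by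
  rw [Set.definable_iff_exists_formula_sum] at hS
  obtain ⟨φ, hφ⟩ := hS
  let fA : A → ((↥(Set.univ : Set G) ⊕ Fin 2) → A) := fun a =>
    Sum.elim (fun g => (e (g : G)).1) ![a, 1]
  let fB : B → ((↥(Set.univ : Set G) ⊕ Fin 2) → B) := fun b =>
    Sum.elim (fun g => (e (g : G)).2) ![1, b]
  let F : Set (((↥(Set.univ : Set G) ⊕ Fin 2) → B) × (Fin 0 → B)) → Set B :=
    fun s => {y | ((fB y, default) : ((↥(Set.univ : Set G) ⊕ Fin 2) → B) × (Fin 0 → B)) ∈ s}
  refine ((finite_sec e φ).image F).subset ?_
  rintro _ ⟨a, rfl⟩
  refine ⟨sec e φ (fA a, default), ⟨_, rfl⟩, ?_⟩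
  ext y
  have h1 : comb e (fA a) (fB y) =
      Sum.elim (fun g : (Set.univ : Set G) => (g : G)) ![e.symm (a, 1), e.symm (1, y)] := by
    funext b
    rcases b with b | b
    · simp [comb, fA, fB]
    · fin_cases b <;> simp [comb, fA, fB]
  simp only [F, sec, mem_ofPred_eq, hφ]
  rw [h1]
  unfold Language.Formula.Realize
  have : comb e (default : Fin 0 → A) (default : Fin 0 → B) = (default : Fin 0 → G) :=
    Subsingleton.elim _ _
  rw [this]

end Box

end Pool.Agent.H53
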