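import Pool.Agent.H53.PCM

/-! The centre of the free metabelian group of rank two is trivial. -/

namespace Pool.Agent.H53

open MonoidAlgebra Multiplicative

/-- the free abelian group of rank two, written multiplicatively -/
abbrev T2 := Multiplicative (ℤ × ℤ)

/-- its integral group ring -/
abbrev R2 := MonoidAlgebra ℤ T2

/-- the action on the group ring -/
noncomputable def act : T2 →* MulAut (Multiplicative R2) where
  toFun t :=
    { toFun := fun p => ofAdd (single t 1 * toAdd p)
      invFun := fun p => ofAdd (single t⁻¹ 1 * toAdd p)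
      left_inv := fun p => by
        show ofAdd (single t⁻¹ 1 * toAdd (ofAdd (single t 1 * toAdd p))) = p
        rw [toAdd_ofAdd, ← mul_assoc, single_mul_single, inv_mul_cancel, mul_one, ← one_def,
          one_mul, ofAdd_toAdd]
      right_inv := fun p => by
        show ofAdd (single t 1 * toAdd (ofAdd (single t⁻¹ 1 * toAdd p))) = p
        rw [toAdd_ofAdd, ← mul_assoc, single_mul_single, mul_inv_cancel, mul_one, ← one_def,
          one_mul, ofAdd_toAdd]
      map_mul' := fun p q => by
        rw [toAdd_mul, mul_add, ofAdd_add] }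
  map_one' := by
    refine MulEquiv.ext fun p => ?_
    show ofAdd (single 1 1 * toAdd p) = p
    rw [← one_def, one_mul, ofAdd_toAdd]
  map_mul' s t := by
    refine MulEquiv.ext fun p => ?_
    show ofAdd (single (s * t) 1 * toAdd p) =
      ofAdd (single s 1 * toAdd (ofAdd (single t 1 * toAdd p)))
    rw [toAdd_ofAdd, ← mul_assoc, single_mul_single, mul_one]

theorem act_apply (t : T2) (p : R2) : act t (ofAdd p) = ofAdd (single t 1 * p) := rfl

/-- the wreath product of `ℤ` and `ℤ²` -/
abbrev W2 := Multiplicative R2 ⋊[act] T2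

theorem W2_metabelian : derivedSeries W2 2 = ⊥ := by
  rw [derivedSeries_succ, Subgroup.commutator_eq_bot_iff_le_centralizer]
  have hker : ∀ u ∈ derivedSeries W2 1, u.right = 1 := by
    intro u hu
    have h1 := map_derivedSeries_le_derivedSeries
      (SemidirectProduct.rightHom : W2 →* T2) 1 ⟨u, hu, rfl⟩
    have h2 : derivedSeries T2 1 = ⊥ := by
      rw [derivedSeries_succ, Subgroup.commutator_eq_bot_iff_le_centralizer]
      intro x _
      rw [Subgroup.mem_centralizer_iff]
      intro y _
      exact mul_comm _ _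
    rw [h2, Subgroup.mem_bot] at h1
    exact h1
  intro u hu
  rw [Subgroup.mem_centralizer_iff]
  intro v hv
  have h1 := hker u hu
  have h2 := hker v hv
  ext1
  · simp [h1, h2, mul_comm]
  · simp [h1, h2]

/-- conjugation of a translation -/
theorem conj_inl (w : W2) (p : R2) :
    w * SemidirectProduct.inl (ofAdd p) * w⁻¹ =
      SemidirectProduct.inl (ofAdd (single w.right 1 * p)) := by
  ext1
  · simp [act_apply, mul_comm, mul_assoc]
  · simp

/-- In `G`, generated by `a` and `b`, every element is `a ^ i * b ^ j` modulo a normal subgroup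
containing the commutator subgroup. -/
theorem exists_zpow {G : Type*} [Group G] (a b : G) (hgen : Subgroup.closure {a, b} = ⊤)
    (s : G) : ∃ i j : ℤ, (a ^ i * b ^ j)⁻¹ * s ∈ commutator G := by
  let q : G →* Abelianization G := Abelianization.of
  have hq : ∀ x, q x = 1 ↔ x ∈ commutator G := fun x => by
    rw [← MonoidHom.mem_ker, Abelianization.ker_of]
  have hs : s ∈ Subgroup.closure {a, b} := by rw [hgen]; trivial
  suffices h : ∃ i j : ℤ, q s = q a ^ i * q b ^ j by
    obtain ⟨i, j, h⟩ := h
    refine ⟨i, j, (hq _).1 ?_⟩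
    rw [map_mul, map_inv, map_mul, map_zpow, map_zpow, h, inv_mul_cancel]
  induction hs using Subgroup.closure_induction with
  | mem x hx =>
    rcases hx with rfl | hx
    · exact ⟨1, 0, by simp⟩
    · rw [Set.mem_singleton_iff] at hx
      subst hx
      exact ⟨0, 1, by simp⟩
  | one => exact ⟨0, 0, by simp⟩
  | mul x y _ _ hx hy =>
    obtain ⟨i, j, h⟩ := hx
    obtain ⟨k, l, h'⟩ := hy
    refine ⟨i + k, j + l, ?_⟩
    rw [map_mul, h, h', zpow_add, zpow_add]
    exact mul_mul_mul_comm _ _ _ _
  | inv x _ hx =>
    obtain ⟨i, j, h⟩ := hx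
    refine ⟨-i, -j, ?_⟩
    rw [map_inv, h, zpow_neg, zpow_neg, mul_inv_rev, mul_comm]

/-- A normal subgroup containing the commutator of two generators contains the commutator
subgroup. -/
theorem commutator_le_of {G : Type*} [Group G] (a b : G) (hgen : Subgroup.closure {a, b} = ⊤)
    (N : Subgroup G) [N.Normal] (h : a * b * a⁻¹ * b⁻¹ ∈ N) : commutator G ≤ N := by
  let q : G →* G ⧸ N := QuotientGroup.mk' N
  have hab : q a * q b = q b * q a := by
    have : q (a * b * a⁻¹ * b⁻¹) = 1 := (QuotientGroup.eq_one_iff _).2 h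
    rw [map_mul, map_mul, map_mul, map_inv, map_inv, mul_inv_eq_one, mul_inv_eq_iff_eq_mul] at this
    exact this
  have hgen' : Subgroup.closure {q a, q b} = ⊤ := by
    have := congrArg (Subgroup.map q) hgen
    rw [MonoidHom.map_closure, Set.image_pair, ← MonoidHom.range_eq_map,
      MonoidHom.range_eq_top.2 (QuotientGroup.mk'_surjective N)] at this
    exact this
  have hcomm : ∀ x y : G ⧸ N, x * y = y * x := by
    have ha : ∀ y : G ⧸ N, y * q a = q a * y := by
      intro y
      have hy : y ∈ Subgroup.closure {q a, q b} := by rw [hgen']; trivial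
      have hle : Subgroup.closure {q a, q b} ≤ Subgroup.centralizer {q a} := by
        rw [Subgroup.closure_le]
        rintro z (rfl | hz)
        · rw [SetLike.mem_coe, Subgroup.mem_centralizer_iff]
          rintro w rfl
          rfl
        · rw [Set.mem_singleton_iff] at hz
          subst hz
          rw [SetLike.mem_coe, Subgroup.mem_centralizer_iff]
          rintro w rfl
          exact hab
      have := hle hy
      rw [Subgroup.mem_centralizer_iff] at this
      exact (this _ rfl).symm
    have hb : ∀ y : G ⧸ N, y * q b = q b * y := by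
      intro y
      have hy : y ∈ Subgroup.closure {q a, q b} := by rw [hgen']; trivial
      have hle : Subgroup.closure {q a, q b} ≤ Subgroup.centralizer {q b} := by
        rw [Subgroup.closure_le]
        rintro z (rfl | hz)
        · rw [SetLike.mem_coe, Subgroup.mem_centralizer_iff]
          rintro w rfl
          exact hab.symm
        · rw [Set.mem_singleton_iff] at hz
          subst hz
          rw [SetLike.mem_coe, Subgroup.mem_centralizer_iff]
          rintro w rfl
          rfl
      have := hle hy
      rw [Subgroup.mem_centralizer_iff] at this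
      exact (this _ rfl).symm
    intro x y
    have hx : x ∈ Subgroup.closure {q a, q b} := by rw [hgen']; trivial
    have hle : Subgroup.closure {q a, q b} ≤ Subgroup.centralizer {y} := by
      rw [Subgroup.closure_le]
      rintro z (rfl | hz)
      · rw [SetLike.mem_coe, Subgroup.mem_centralizer_iff]
        rintro w rfl
        exact ha _
      · rw [Set.mem_singleton_iff] at hz
        subst hz
        rw [SetLike.mem_coe, Subgroup.mem_centralizer_iff]
        rintro w rfl
        exact hb _
    have := hle hx
    rw [Subgroup.mem_centralizer_iff] at this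
    exact (this _ rfl).symm
  rw [commutator_def, Subgroup.commutator_le]
  intro x _ y _
  rw [← QuotientGroup.eq_one_iff]
  show q (x * y * x⁻¹ * y⁻¹) = 1
  rw [map_mul, map_mul, map_mul, map_inv, map_inv, mul_inv_eq_one, mul_inv_eq_iff_eq_mul]
  exact hcomm _ _

/-- the element `x - 1` of the group ring -/
noncomputable def xm : R2 := single (ofAdd ((1 : ℤ), (0 : ℤ))) 1 - 1

theorem xm_ne : xm ≠ 0 := by
  intro h
  unfold xm at h
  rw [sub_eq_zero, one_def] at h
  have := MonoidAlgebra.of_injective (R := ℤ) h
  simp at this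

section Main

variable {M : Type*} [Group M] (a b : M)

theorem right_w (φ : M →* W2)
    (ha : φ a = SemidirectProduct.inr (ofAdd ((1 : ℤ), (0 : ℤ))))
    (hb : φ b = SemidirectProduct.inl (ofAdd 1) *
      SemidirectProduct.inr (ofAdd ((0 : ℤ), (1 : ℤ)))) (i j : ℤ) :
    (φ (a ^ i * b ^ j)).right = ofAdd (i, j) := by
  have h : SemidirectProduct.rightHom (φ (a ^ i * b ^ j)) = ofAdd (i, j) := by
    rw [map_mul, map_zpow, map_zpow, map_mul, map_zpow, map_zpow, ha, hb, map_mul]
    simp only [SemidirectProduct.rightHom_inr, SemidirectProduct.rightHom_inl, one_mul]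
    rw [← ofAdd_zsmul, ← ofAdd_zsmul, ← ofAdd_add]
    simp
  exact h

theorem center_trivial (hgen : Subgroup.closure {a, b} = ⊤) (hmet : derivedSeries M 2 = ⊥)
    (φ : M →* W2)
    (ha : φ a = SemidirectProduct.inr (ofAdd ((1 : ℤ), (0 : ℤ))))
    (hb : φ b = SemidirectProduct.inl (ofAdd 1) *
      SemidirectProduct.inr (ofAdd ((0 : ℤ), (1 : ℤ)))) :
    Subgroup.center M = ⊥ := by
  classical
  -- the commutator subgroup is abelian
  have hD : ∀ u ∈ commutator M, ∀ v ∈ commutator M, u * v = v * u := by
    rw [derivedSeries_succ, derivedSeries_one,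
      Subgroup.commutator_eq_bot_iff_le_centralizer] at hmet
    intro u hu v hv
    have := hmet hv
    rw [Subgroup.mem_centralizer_iff] at this
    exact this u hu
  let _ : CommGroup (commutator M) :=
    { (inferInstance : Group (commutator M)) with
      mul_comm := fun u v => Subtype.ext (hD u u.2 v v.2) }
  have hc : a * b * a⁻¹ * b⁻¹ ∈ commutator M := by
    rw [commutator_def]
    exact Subgroup.commutator_mem_commutator (Subgroup.mem_top a) (Subgroup.mem_top b)
  obtain ⟨c, hcdef⟩ : ∃ c, c = a * b * a⁻¹ * b⁻¹ := ⟨_, rfl⟩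
  rw [← hcdef] at hc
  let w : T2 → M := fun t => a ^ (toAdd t).1 * b ^ (toAdd t).2
  let C : T2 → commutator M := fun t =>
    ⟨w t * c * (w t)⁻¹, (inferInstance : (commutator M).Normal).conj_mem c hc (w t)⟩
  let ψ : R2 →+ Additive (commutator M) :=
    (Finsupp.liftAddHom (fun t => zmultiplesHom (Additive (commutator M))
      (Additive.ofMul (C t)))).comp coeffAddEquiv.toAddMonoidHom
  have hψs : ∀ t n, ψ (single t n) = n • Additive.ofMul (C t) := by
    intro t n
    simp [ψ]
  let q : M →* Abelianization M := Abelianization.of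
  have hq : ∀ x, q x = 1 ↔ x ∈ commutator M := fun x => by
    rw [← MonoidHom.mem_ker, Abelianization.ker_of]
  have hqw : ∀ s t, q (w (s * t)) = q (w s) * q (w t) := by
    intro s t
    simp only [w, map_mul, map_zpow, toAdd_mul, Prod.fst_add, Prod.snd_add, zpow_add]
    exact mul_mul_mul_comm _ _ _ _
  -- conjugation
  have key1 : ∀ s : M, ∃ t0 : T2, ∀ r : R2,
      s * (Additive.toMul (ψ r) : commutator M) * s⁻¹ =
        (Additive.toMul (ψ (single t0 1 * r)) : commutator M) := by
    intro s
    obtain ⟨i, j, hij⟩ := exists_zpow a b hgen s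
    have hqs : q s = q (w (ofAdd (i, j))) := by
      have := (hq _).2 hij
      rw [map_mul, map_inv, inv_mul_eq_one] at this
      exact this.symm
    refine ⟨ofAdd (i, j), ?_⟩
    have hC : ∀ t, s * (C t : M) * s⁻¹ = C (ofAdd (i, j) * t) := by
      intro t
      have he : (w (ofAdd (i, j) * t))⁻¹ * (s * w t) ∈ commutator M := by
        rw [← hq, map_mul q (w (ofAdd (i, j) * t))⁻¹, map_inv, hqw, map_mul q s, hqs,
          inv_mul_cancel]
      obtain ⟨e, he1, he2⟩ : ∃ e ∈ commutator M, s * w t = w (ofAdd (i, j) * t) * e :=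
        ⟨_, he, by group⟩
      show s * (w t * c * (w t)⁻¹) * s⁻¹ =
        w (ofAdd (i, j) * t) * c * (w (ofAdd (i, j) * t))⁻¹
      calc s * (w t * c * (w t)⁻¹) * s⁻¹ = (s * w t) * c * (s * w t)⁻¹ := by group
        _ = (w (ofAdd (i, j) * t) * e) * c * (w (ofAdd (i, j) * t) * e)⁻¹ := by rw [he2]
        _ = w (ofAdd (i, j) * t) * (e * c * e⁻¹) * (w (ofAdd (i, j) * t))⁻¹ := by group
        _ = _ := by rw [hD e he1 c hc, mul_inv_cancel_right]
    intro r
    induction r using MonoidAlgebra.induction_linear with
    | zero => simp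
    | add f g hf hg =>
      rw [mul_add, map_add ψ f g, map_add ψ (single (ofAdd (i, j)) 1 * f), toMul_add, toMul_add,
        Subgroup.coe_mul, Subgroup.coe_mul, ← hf, ← hg]
      group
    | single t n =>
      rw [single_mul_single, one_mul, hψs, hψs, toMul_zsmul, toMul_zsmul, toMul_ofMul,
        toMul_ofMul, Subgroup.coe_zpow, Subgroup.coe_zpow, ← hC]
      exact conj_zpow.symm
  -- the subgroup of all `ψ r`
  let N : Subgroup M :=
    { carrier := {x | ∃ r, ((Additive.toMul (ψ r) : commutator M) : M) = x}
      mul_mem' := by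
        rintro _ _ ⟨r, rfl⟩ ⟨s, rfl⟩
        exact ⟨r + s, by rw [map_add, toMul_add, Subgroup.coe_mul]⟩
      one_mem' := ⟨0, by simp⟩
      inv_mem' := by
        rintro _ ⟨r, rfl⟩
        exact ⟨-r, by rw [map_neg, toMul_neg, Subgroup.coe_inv]⟩ }
  have hN : N.Normal := by
    refine ⟨?_⟩
    rintro _ ⟨r, rfl⟩ s
    obtain ⟨t0, ht⟩ := key1 s
    exact ⟨_, (ht r).symm⟩
  have hcN : a * b * a⁻¹ * b⁻¹ ∈ N := by
    refine ⟨single 1 1, ?_⟩
    rw [hψs, one_smul, toMul_ofMul, ← hcdef]
    simp [C, w]
  have hDN : commutator M ≤ N := commutator_le_of a b hgen N hcN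
  -- the image of `c`
  have hφc : φ c = SemidirectProduct.inl (ofAdd xm) := by
    rw [hcdef, map_mul, map_mul, map_mul, map_inv, map_inv, ha, hb]
    ext1
    · simp [xm, act_apply, one_def, sub_eq_add_neg]
    · simp
  have key3 : ∀ r : R2, φ (Additive.toMul (ψ r) : commutator M) =
      SemidirectProduct.inl (ofAdd (r * xm)) := by
    intro r
    induction r using MonoidAlgebra.induction_linear with
    | zero => simp
    | add f g hf hg =>
      rw [map_add ψ f g, toMul_add, Subgroup.coe_mul, map_mul φ, hf, hg, add_mul, ofAdd_add,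
        map_mul SemidirectProduct.inl]
    | single t n =>
      have h1 : φ (C t : M) = SemidirectProduct.inl (ofAdd (single t 1 * xm)) := by
        show φ (w t * c * (w t)⁻¹) = _
        rw [map_mul, map_mul, map_inv, hφc, conj_inl, right_w a b φ ha hb]
        rfl
      have h2 : single t n * xm = n • (single t 1 * xm : R2) := by
        rw [← smul_mul_assoc]
        congr 1
        simp
      rw [hψs, toMul_zsmul, toMul_ofMul, Subgroup.coe_zpow, map_zpow, h1, h2, ofAdd_zsmul,
        map_zpow]
  rw [eq_bot_iff]
  intro z hz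
  rw [Subgroup.mem_center_iff] at hz
  rw [Subgroup.mem_bot]
  have hza := congrArg φ (hz a)
  have hzb := congrArg φ (hz b)
  rw [map_mul, map_mul, ha] at hza
  rw [map_mul, map_mul, hb] at hzb
  have hleft : (φ z).left = 1 := by
    have h := congrArg SemidirectProduct.left hza
    simp only [SemidirectProduct.mul_left, SemidirectProduct.left_inr,
      SemidirectProduct.right_inr, map_one, one_mul, mul_one] at h
    obtain ⟨p, hp⟩ : ∃ p : R2, (φ z).left = ofAdd p := ⟨toAdd (φ z).left, rfl⟩
    rw [hp, act_apply] at h
    have h' : single (ofAdd ((1 : ℤ), (0 : ℤ))) 1 * p = p := ofAdd.injective h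
    have h'' : xm * p = 0 := by
      unfold xm
      rw [sub_mul, h', one_mul, sub_self]
    rcases mul_eq_zero.1 h'' with h0 | h0
    · exact absurd h0 xm_ne
    · rw [hp, h0]
      rfl
  have hright : (φ z).right = 1 := by
    have h := congrArg SemidirectProduct.left hzb
    simp only [SemidirectProduct.mul_left, SemidirectProduct.left_inr,
      SemidirectProduct.right_inr, SemidirectProduct.left_inl, SemidirectProduct.right_inl,
      SemidirectProduct.mul_right, map_one, one_mul, mul_one, hleft] at h
    have h' : act (φ z).right (ofAdd 1) = ofAdd 1 := h.symm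
    rw [act_apply, mul_one] at h'
    have h'' : single (φ z).right (1 : ℤ) = 1 := ofAdd.injective h'
    rw [one_def] at h''
    exact MonoidAlgebra.of_injective (R := ℤ) h''
  have hφz : φ z = 1 := SemidirectProduct.ext hleft hright
  have hzD : z ∈ commutator M := by
    obtain ⟨i, j, hij⟩ := exists_zpow a b hgen z
    have h1 : (φ ((a ^ i * b ^ j)⁻¹ * z)).right = 1 := by
      have h2 := map_derivedSeries_le_derivedSeries
        ((SemidirectProduct.rightHom : W2 →* T2).comp φ) 1
          ⟨_, by rw [derivedSeries_one]; exact hij, rfl⟩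
      have h3 : derivedSeries T2 1 = ⊥ := by
        rw [derivedSeries_succ, Subgroup.commutator_eq_bot_iff_le_centralizer]
        intro x _
        rw [Subgroup.mem_centralizer_iff]
        intro y _
        exact mul_comm _ _
      rw [h3, Subgroup.mem_bot] at h2
      exact h2
    rw [map_mul, hφz, mul_one, map_inv] at h1
    have h4 : (φ (a ^ i * b ^ j)).right = 1 := by
      have : ((φ (a ^ i * b ^ j))⁻¹).right = ((φ (a ^ i * b ^ j)).right)⁻¹ := by simp
      rw [this, inv_eq_one] at h1
      exact h1
    rw [right_w a b φ ha hb] at h4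
    have h5 : ((i, j) : ℤ × ℤ) = 0 := ofAdd.injective h4
    have hi : i = 0 := congrArg Prod.fst h5
    have hj : j = 0 := congrArg Prod.snd h5
    rw [hi, hj] at hij
    simpa using hij
  obtain ⟨r, hr⟩ := hDN hzD
  have h6 := key3 r
  rw [hr, hφz] at h6
  have h7 : ofAdd (r * xm) = (1 : Multiplicative R2) := by
    have := congrArg SemidirectProduct.left h6
    simpa using this.symm
  have h8 : r * xm = 0 := ofAdd.injective h7
  rcases mul_eq_zero.1 h8 with h0 | h0
  · rw [← hr, h0]
    simp
  · exact absurd h0 xm_ne

end Main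

/-- The centre of the free metabelian group of rank two is trivial. -/
theorem center_rank_two : Subgroup.center (PCMetabelianGroup (⊥ : SimpleGraph (Fin 2))) = ⊥ := by
  let f : Fin 2 → W2 := ![SemidirectProduct.inr (ofAdd ((1 : ℤ), (0 : ℤ))),
    SemidirectProduct.inl (ofAdd 1) * SemidirectProduct.inr (ofAdd ((0 : ℤ), (1 : ℤ)))]
  refine center_trivial (pcGen ⊥ 0) (pcGen ⊥ 1) ?_ (pc_metabelian _)
    (pcLift ⊥ W2_metabelian f (fun _ _ h => h.elim)) ?_ ?_
  · rw [← pc_closure]
    congr 1
    ext x
    simp only [Set.mem_insert_iff, Set.mem_singleton_iff, Set.mem_range, Fin.exists_fin_two]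
    tauto
  · rw [pcLift_gen]
    rfl
  · rw [pcLift_gen]
    rfl

end Pool.Agent.H53
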