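import Mathlib

/-!
Definitions for problem MP_5cf697_lc: the language of groups, the structure `(ℕ; +, ·, 0, 1)`,
interpretations (with parameters), bi-interpretability, partially commutative metabelian groups.
-/

namespace Pool.Agent.H53

open FirstOrder

/-- Function symbols of the language of groups. -/
inductive GroupFunc : ℕ → Type
  | one : GroupFunc 0
  | inv : GroupFunc 1
  | mul : GroupFunc 2

/-- The first-order language of groups: a constant `1`, a unary `⁻¹`, a binary `*`. -/
def groupLang : Language where
  Functions := GroupFunc
  Relations := fun _ => Empty

/-- Every group is a structure for the language of groups in the obvious way. -/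
instance groupStructure (G : Type*) [Group G] : groupLang.Structure G where
  funMap := fun {_} f => match f with
    | .one => fun _ => 1
    | .inv => fun v => (v 0)⁻¹
    | .mul => fun v => v 0 * v 1
  RelMap := fun {_} r => Empty.elim r

/-- Function symbols of the language of arithmetic. -/
inductive NatFunc : ℕ → Type
  | zero : NatFunc 0
  | one : NatFunc 0
  | add : NatFunc 2
  | mul : NatFunc 2

/-- The first-order language of arithmetic `(+, ·, 0, 1)`. -/
def natLang : Language where
  Functions := NatFunc
  Relations := fun _ => Empty

/-- The structure `(ℕ; +, ·, 0, 1)`. -/
instance natStructure : natLang.Structure ℕ where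
  funMap := fun {_} f => match f with
    | .zero => fun _ => 0
    | .one => fun _ => 1
    | .add => fun v => v 0 + v 1
    | .mul => fun v => v 0 * v 1
  RelMap := fun {_} r => Empty.elim r

/-- Let `X ⊆ A^n` be a set and `∼` an equivalence relation on `X`.
A set `S` of `α`-tuples of elements of `X/∼` is *definable in `A`* (with parameters) if the set of
all `α`-tuples of elements of `X` whose tuple of classes lies in `S`, regarded as a subset of
`A^(α × n)`, is first-order definable with parameters from `A`. -/
def DefinableOnQuotient (L : Language) {A : Type*} [L.Structure A] {n : ℕ}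
    {X : Set (Fin n → A)} (r : Setoid X) {α : Type*} (S : Set (α → Quotient r)) : Prop :=
  (Set.univ : Set A).Definable L
    {v : α × Fin n → A | ∃ h : ∀ i, (fun j => v (i, j)) ∈ X,
      (fun i => (Quotient.mk r ⟨fun j => v (i, j), h i⟩ : Quotient r)) ∈ S}

/-- An interpretation (with parameters) of the `L'`-structure `B` in the `L`-structure `A`:
a definable set `dom ⊆ A^dim`, a definable equivalence relation `rel` on it, an `L'`-structure
`str` on `dom/rel` all of whose basic functions and relations are definable in `A`, and an
isomorphism `iso` of `L'`-structures from `dom/rel` onto `B`. -/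
structure Interpretation (L : Language) (A : Type*) [L.Structure A]
    (L' : Language) (B : Type*) [L'.Structure B] where
  /-- the exponent `n` -/
  dim : ℕ
  /-- the set `X ⊆ A^n` -/
  dom : Set (Fin dim → A)
  /-- the equivalence relation on `X` -/
  rel : Setoid dom
  /-- the structure on `X/∼` -/
  str : L'.Structure (Quotient rel)
  /-- the isomorphism from `X/∼` onto `B` -/
  iso : Quotient rel ≃[L'] B
  dom_definable : (Set.univ : Set A).Definable L dom
  rel_definable : (Set.univ : Set A).Definable L
    {v : Fin 2 × Fin dim → A | ∃ (h0 : (fun j => v (0, j)) ∈ dom) (h1 : (fun j => v (1, j)) ∈ dom),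
      rel ⟨fun j => v (0, j), h0⟩ ⟨fun j => v (1, j), h1⟩}
  /-- the graph of the interpretation of each function symbol is definable -/
  funMap_definable : ∀ {k : ℕ} (f : L'.Functions k),
    DefinableOnQuotient L rel
      {q : Fin (k + 1) → Quotient rel |
        Language.Structure.funMap f (fun i : Fin k => q i.castSucc) = q (Fin.last k)}
  /-- the interpretation of each relation symbol is definable -/
  relMap_definable : ∀ {k : ℕ} (R : L'.Relations k),
    DefinableOnQuotient L rel {q : Fin k → Quotient rel | Language.Structure.RelMap R q}

attribute [instance] Interpretation.str

/-- The element of `B` represented by a tuple `x ∈ X`: the image under `iso` of its class. -/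
def Interpretation.point {L : Language} {A : Type*} [L.Structure A]
    {L' : Language} {B : Type*} [L'.Structure B]
    (I : Interpretation L A L' B) (x : Fin I.dim → A) (h : x ∈ I.dom) : B :=
  I.iso (Quotient.mk I.rel ⟨x, h⟩)

/-- Given interpretations `I` of `B` in `A` and `J` of `A` in `B`, the graph of the induced
isomorphism from `A` onto the copy of `A` interpreted (via `B`) in `A`. The elements of this copy
are classes of `J.dim`-tuples of elements of `I.dom`. A point of the graph is a pair consisting of
`a` (the coordinate `Sum.inl ()`) and such a tuple of tuples (the coordinates `Sum.inr (i, j)`)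
representing the element of the copy which is mapped back to `a`. -/
def Interpretation.compGraph {L : Language} {A : Type*} [L.Structure A]
    {L' : Language} {B : Type*} [L'.Structure B]
    (I : Interpretation L A L' B) (J : Interpretation L' B L A) :
    Set (Unit ⊕ Fin J.dim × Fin I.dim → A) :=
  {v | ∃ (h : ∀ i, (fun j => v (Sum.inr (i, j))) ∈ I.dom)
      (h' : (fun i => I.point (fun j => v (Sum.inr (i, j))) (h i)) ∈ J.dom),
      J.point _ h' = v (Sum.inl ())}

/-- The structures `A` and `B` are bi-interpretable (with parameters): there are interpretations
of `B` in `A` and of `A` in `B` such that the two induced isomorphisms, of `A` onto its copy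
interpreted via `B` in `A` and of `B` onto its copy interpreted via `A` in `B`, are definable. -/
def BiInterpretable (L : Language) (A : Type*) [L.Structure A]
    (L' : Language) (B : Type*) [L'.Structure B] : Prop :=
  ∃ (I : Interpretation L A L' B) (J : Interpretation L' B L A),
    (Set.univ : Set A).Definable L (I.compGraph J) ∧
    (Set.univ : Set B).Definable L' (J.compGraph I)

/-- The free metabelian group on `V`: the free group modulo its second derived subgroup. -/
def FreeMetabelianGroup (V : Type*) : Type _ :=
  FreeGroup V ⧸ derivedSeries (FreeGroup V) 2

/-- The quotient group structure. -/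
instance (V : Type*) : Group (FreeMetabelianGroup V) :=
  QuotientGroup.Quotient.group (derivedSeries (FreeGroup V) 2)

/-- The generator of the free metabelian group corresponding to `v`. -/
def FreeMetabelianGroup.gen {V : Type*} (v : V) : FreeMetabelianGroup V :=
  QuotientGroup.mk (FreeGroup.of v)

/-- The commutators `[u, v]` of the generators with `u` and `v` adjacent in `Γ`. -/
def edgeCommutators {V : Type*} (Γ : SimpleGraph V) : Set (FreeMetabelianGroup V) :=
  {g | ∃ u v : V, Γ.Adj u v ∧ g = FreeMetabelianGroup.gen u * FreeMetabelianGroup.gen v *
    (FreeMetabelianGroup.gen u)⁻¹ * (FreeMetabelianGroup.gen v)⁻¹}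

/-- The partially commutative metabelian group `M_Γ` of a graph `Γ` on `V`: the free metabelian
group on `V` modulo the normal subgroup generated by all `[u, v]`, `u` and `v` adjacent in `Γ`. -/
def PCMetabelianGroup {V : Type*} (Γ : SimpleGraph V) : Type _ :=
  FreeMetabelianGroup V ⧸ Subgroup.normalClosure (edgeCommutators Γ)

/-- The quotient group structure. -/
instance {V : Type*} (Γ : SimpleGraph V) : Group (PCMetabelianGroup Γ) :=
  QuotientGroup.Quotient.group (Subgroup.normalClosure (edgeCommutators Γ))

end Pool.Agent.H53
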