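import Pool.Agent.H53.Interp

namespace Pool.Agent.H53

open FirstOrder Set

section Preorder

variable {L : Language} {A : Type*} [L.Structure A]

/-- `x` represents the natural number `b` -/
def Interpretation.Rep (I : Interpretation L A natLang ℕ) (x : Fin I.dim → A) (b : ℕ) : Prop :=
  ∃ h : x ∈ I.dom, I.iso (Quotient.mk I.rel ⟨x, h⟩) = b

theorem Interpretation.Rep.unique {I : Interpretation L A natLang ℕ} {x : Fin I.dim → A}
    {a b : ℕ} (ha : I.Rep x a) (hb : I.Rep x b) : a = b := by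
  obtain ⟨h, rfl⟩ := ha
  obtain ⟨h', rfl⟩ := hb
  rfl

theorem Interpretation.exists_rep (I : Interpretation L A natLang ℕ) (b : ℕ) :
    ∃ x, I.Rep x b := by
  obtain ⟨q, hq⟩ := I.iso.surjective b
  induction q using Quotient.inductionOn with
  | h x => exact ⟨x.1, x.2, hq⟩

theorem Interpretation.add_definable (I : Interpretation L A natLang ℕ) :
    (univ : Set A).Definable L {w : Fin 3 × Fin I.dim → A | ∃ a b c : ℕ,
      I.Rep (fun j => w (0, j)) a ∧ I.Rep (fun j => w (1, j)) b ∧
      I.Rep (fun j => w (2, j)) c ∧ a + b = c} := by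
  have h := I.funMap_definable NatFunc.add
  unfold DefinableOnQuotient at h
  convert h using 1
  ext w
  constructor
  · rintro ⟨a, b, c, ⟨h0, ha⟩, ⟨h1, hb⟩, ⟨h2, hc⟩, habc⟩
    have hd : ∀ i : Fin 3, (fun j => w (i, j)) ∈ I.dom := by
      intro i
      fin_cases i
      · exact h0
      · exact h1
      · exact h2
    refine ⟨hd, ?_⟩
    apply I.iso.toEquiv.injective
    refine (I.iso.map_fun' NatFunc.add _).trans ?_
    rw [← hc, ← ha, ← hb] at habc
    exact habc
  · rintro ⟨hd, h⟩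
    refine ⟨_, _, _, ⟨hd 0, rfl⟩, ⟨hd 1, rfl⟩, ⟨hd 2, rfl⟩, ?_⟩
    have := congrArg I.iso.toEquiv h
    exact (I.iso.map_fun' NatFunc.add _).symm.trans this

theorem Interpretation.le_definable (I : Interpretation L A natLang ℕ) :
    (univ : Set A).Definable L {w : Fin 2 × Fin I.dim → A | ∃ a b : ℕ,
      I.Rep (fun j => w (0, j)) a ∧ I.Rep (fun j => w (1, j)) b ∧ a ≤ b} := by
  let f : Fin 3 × Fin I.dim → (Fin 2 × Fin I.dim) ⊕ Fin I.dim :=
    fun p => ![Sum.inl (0, p.2), Sum.inr p.2, Sum.inl (1, p.2)] p.1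
  have h := (I.add_definable.preimage_comp f).exists_of_finite
  convert h using 1
  ext w
  simp only [mem_ofPred_eq, mem_preimage, Function.comp_def, f]
  constructor
  · rintro ⟨a, b, ha, hb, hab⟩
    obtain ⟨z, hz⟩ := I.exists_rep (b - a)
    exact ⟨z, a, b - a, b, ha, hz, hb, by omega⟩
  · rintro ⟨z, a, b, c, ha, hb, hc, habc⟩
    exact ⟨a, c, ha, hc, by omega⟩

variable (I : Interpretation L A natLang ℕ) (J : Interpretation natLang ℕ L A)

/-- `u` has a code all of whose coordinates are at most `n` -/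
def Interpretation.HasCode (J : Interpretation natLang ℕ L A) (u : A) (n : ℕ) : Prop :=
  ∃ (y : Fin J.dim → ℕ) (h : y ∈ J.dom), J.iso (Quotient.mk J.rel ⟨y, h⟩) = u ∧ ∀ i, y i ≤ n

theorem code_definable (hg : (univ : Set A).Definable L (I.compGraph J)) :
    (univ : Set A).Definable L {v : Unit ⊕ Fin I.dim → A | ∃ n,
      I.Rep (fun j => v (Sum.inr j)) n ∧ J.HasCode (v (Sum.inl ())) n} := by
  -- variables: (Unit ⊕ Fin d) ⊕ (Fin m × Fin d)
  let f : Unit ⊕ Fin J.dim × Fin I.dim → (Unit ⊕ Fin I.dim) ⊕ (Fin J.dim × Fin I.dim) :=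
    Sum.elim (fun _ => Sum.inl (Sum.inl ())) Sum.inr
  let g : Fin J.dim → Fin 2 × Fin I.dim → (Unit ⊕ Fin I.dim) ⊕ (Fin J.dim × Fin I.dim) :=
    fun i p => ![Sum.inr (i, p.2), Sum.inl (Sum.inr p.2)] p.1
  have hdom : (univ : Set A).Definable L
      {v : (Unit ⊕ Fin I.dim) ⊕ (Fin J.dim × Fin I.dim) → A |
        (fun j => v (Sum.inl (Sum.inr j))) ∈ I.dom} :=
    I.dom_definable.preimage_comp (fun j => Sum.inl (Sum.inr j))
  have h := (((hg.preimage_comp f).inter
    (definable_iInter_of_finite (fun i => I.le_definable.preimage_comp (g i)))).inter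
      hdom).exists_of_finite
  convert h using 1
  ext v
  simp only [mem_ofPred_eq, mem_preimage, Function.comp_def, mem_inter_iff, mem_iInter, f, g]
  constructor
  · rintro ⟨n, hn, y, hy, hyu, hyn⟩
    choose x hx using fun i => I.exists_rep (y i)
    refine ⟨fun p => x p.1 p.2, ⟨⟨fun i => (hx i).1, ?_⟩, ?_⟩, hn.1⟩
    · have : (fun i => I.point (x i) (hx i).1) = y := by
        funext i
        exact (hx i).2
      refine ⟨by simpa [this] using hy, ?_⟩
      simp only [Sum.elim_inr, Sum.elim_inl]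
      rw [← hyu]
      unfold Interpretation.point
      congr 1
      apply congrArg (Quotient.mk J.rel)
      exact Subtype.ext this
    · intro i
      exact ⟨y i, n, hx i, hn, hyn i⟩
  · rintro ⟨w, ⟨⟨hd, hd', hw⟩, hle⟩, hv⟩
    refine ⟨I.iso (Quotient.mk I.rel ⟨_, hv⟩), ⟨hv, rfl⟩, _, hd', hw, ?_⟩
    intro i
    obtain ⟨a, b, ha, hb, hab⟩ := hle i
    have h1 : I.iso (Quotient.mk I.rel ⟨_, hd i⟩) = a := by
      obtain ⟨h', h''⟩ := ha
      exact h''
    have h2 : I.iso (Quotient.mk I.rel ⟨_, hv⟩) = b := by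
      obtain ⟨h', h''⟩ := hb
      exact h''
    rw [h2]
    exact le_trans (le_of_eq h1) hab

/-- A structure bi-interpretable with `ℕ` carries a definable preorder given by a finite-to-one
map to `ℕ`. -/
theorem exists_definable_preorder (hg : (univ : Set A).Definable L (I.compGraph J)) :
    ∃ N : A → ℕ, (∀ n, {u | N u ≤ n}.Finite) ∧
      (univ : Set A).Definable L {v : Fin 2 → A | N (v 0) ≤ N (v 1)} := by
  classical
  have hne : ∀ u, ∃ n, J.HasCode u n := by
    intro u
    obtain ⟨q, hq⟩ := J.iso.surjective u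
    induction q using Quotient.inductionOn with
    | h y =>
      refine ⟨Finset.univ.sup y.1, y.1, y.2, hq, fun i => ?_⟩
      exact Finset.le_sup (f := y.1) (Finset.mem_univ i)
  have hmono : ∀ u m n, m ≤ n → J.HasCode u m → J.HasCode u n := by
    rintro u m n hmn ⟨y, hy, hu, hle⟩
    exact ⟨y, hy, hu, fun i => (hle i).trans hmn⟩
  let N : A → ℕ := fun u => Nat.find (hne u)
  have hN : ∀ u n, J.HasCode u n ↔ N u ≤ n := by
    intro u n
    constructor
    · intro h
      exact Nat.find_min' _ h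
    · intro h
      exact hmono u _ n h (Nat.find_spec (hne u))
  refine ⟨N, ?_, ?_⟩
  · intro n
    have hfin : {y : Fin J.dim → ℕ | ∀ i, y i ≤ n}.Finite := by
      refine (Set.Finite.pi' (fun i : Fin J.dim => Set.finite_Iic n)).subset ?_
      intro y hy
      exact hy
    let F : (Fin J.dim → ℕ) → Set A := fun y =>
      {u | ∃ h : y ∈ J.dom, J.iso (Quotient.mk J.rel ⟨y, h⟩) = u}
    have hF : ∀ y, (F y).Finite := by
      intro y
      refine Set.Subsingleton.finite ?_
      rintro u ⟨h, rfl⟩ v ⟨h', rfl⟩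
      rfl
    refine (hfin.biUnion (fun y _ => hF y)).subset ?_
    intro u hu
    obtain ⟨y, hy, hyu, hle⟩ := (hN u n).2 hu
    exact Set.mem_biUnion (show y ∈ {y : Fin J.dim → ℕ | ∀ i, y i ≤ n} from hle) ⟨hy, hyu⟩
  · have hc := code_definable I J hg
    -- variables: Fin 2 ⊕ Fin d
    let f : Fin 2 → Unit ⊕ Fin I.dim → Fin 2 ⊕ Fin I.dim :=
      fun k => Sum.elim (fun _ => Sum.inl k) Sum.inr
    have h := ((hc.preimage_comp (f 1)).himp (hc.preimage_comp (f 0))).forall_of_finite
    convert h using 1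
    ext v
    simp only [mem_ofPred_eq, himp_eq, f]
    constructor
    · intro hv x
      by_cases hx : Sum.elim v x ∈ (fun g : Fin 2 ⊕ Fin I.dim → A =>
        g ∘ Sum.elim (fun _ => Sum.inl 1) Sum.inr) ⁻¹' {v : Unit ⊕ Fin I.dim → A | ∃ n,
          I.Rep (fun j => v (Sum.inr j)) n ∧ J.HasCode (v (Sum.inl ())) n}
      · left
        obtain ⟨n, h1, h2⟩ := hx
        exact ⟨n, h1, (hN _ _).2 (hv.trans ((hN _ _).1 h2))⟩
      · right
        exact hx
    · intro hv
      obtain ⟨x, hx⟩ := I.exists_rep (N (v 1))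
      rcases hv x with h | h
      · obtain ⟨n, h1, h2⟩ := h
        have : n = N (v 1) := Interpretation.Rep.unique h1 hx
        rw [← this]
        exact (hN _ _).1 h2
      · exact absurd ⟨N (v 1), hx, (hN _ _).2 le_rfl⟩ h

end Preorder

end Pool.Agent.H53
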