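import Pool.Agent.H53.Box
import Pool.Agent.H53.Preorder
import Pool.Agent.H53.Center

namespace Pool.Agent.H53

open FirstOrder

/-- A group which is a direct product of two infinite groups is not bi-interpretable with `ℕ`. -/
theorem not_biInterpretable_of_prod {G A B : Type*} [Group G] [Group A] [Group B]
    [Infinite A] [Infinite B] (e : G ≃* A × B) :
    ¬ BiInterpretable groupLang G natLang ℕ := by
  rintro ⟨I, J, hg, -⟩
  obtain ⟨N, hfin, hdef⟩ := exists_definable_preorder I J hg
  have hS := finite_sections e _ hdef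
  have hA : ∀ n, ∃ a : A, n < N (e.symm (a, 1)) := by
    intro n
    by_contra hcon
    push Not at hcon
    have : (Set.univ : Set A).Finite := by
      refine Set.Finite.of_finite_image ((hfin n).subset ?_)
        (f := fun a : A => e.symm (a, 1)) ?_
      · rintro _ ⟨a, -, rfl⟩
        exact hcon a
      · intro a _ b _ hab
        have := e.symm.injective hab
        exact congrArg Prod.fst this
    exact Set.infinite_univ this
  have hB : ∀ n, ∃ b : B, n < N (e.symm (1, b)) := by
    intro n
    by_contra hcon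
    push Not at hcon
    have : (Set.univ : Set B).Finite := by
      refine Set.Finite.of_finite_image ((hfin n).subset ?_)
        (f := fun b : B => e.symm (1, b)) ?_
      · rintro _ ⟨a, -, rfl⟩
        exact hcon a
      · intro a _ b _ hab
        have := e.symm.injective hab
        exact congrArg Prod.snd this
    exact Set.infinite_univ this
  have hmem : ∀ (a : A) (y : B), y ∈ {y : B | ![e.symm (a, 1), e.symm (1, y)] ∈
      {v : Fin 2 → G | N (v 0) ≤ N (v 1)}} ↔ N (e.symm (a, 1)) ≤ N (e.symm (1, y)) := by
    intro a y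
    rfl
  have hne : ∀ s ∈ Set.range (fun a : A => {y : B | ![e.symm (a, 1), e.symm (1, y)] ∈
      {v : Fin 2 → G | N (v 0) ≤ N (v 1)}}), ∃ y : B, y ∈ s := by
    rintro _ ⟨a, rfl⟩
    obtain ⟨b, hb⟩ := hB (N (e.symm (a, 1)))
    exact ⟨b, (hmem a b).2 hb.le⟩
  choose! y hy using hne
  obtain ⟨n, hn⟩ := (hS.image (fun s => N (e.symm (1, y s)))).bddAbove
  obtain ⟨a, ha⟩ := hA n
  have h1 := (hmem a _).1 (hy _ ⟨a, rfl⟩)
  have h2 := hn (Set.mem_image_of_mem _ ⟨a, rfl⟩)
  exact absurd (h1.trans h2) (not_le.2 ha)

theorem join_bot : joinGraph (⊥ : SimpleGraph (Fin 2)) (⊥ : SimpleGraph (Fin 2)) =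
    completeBipartiteGraph (Fin 2) (Fin 2) := by
  ext u v
  rcases u with u | u <;> rcases v with v | v <;>
    simp [joinGraph, completeBipartiteGraph]

end Pool.Agent.H53
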