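import Pool.Agent.H53.Interp

/-! Partially commutative metabelian groups: universal property, joins are direct products. -/

namespace Pool.Agent.H53

section Metab

theorem derivedSeries_two_comm {G : Type*} [CommGroup G] : derivedSeries G 2 = ⊥ := by
  rw [derivedSeries_succ, Subgroup.commutator_eq_bot_iff_le_centralizer]
  intro x _
  rw [Subgroup.mem_centralizer_iff]
  intro y _
  exact mul_comm _ _

theorem derivedSeries_two_prod {G H : Type*} [Group G] [Group H]
    (hG : derivedSeries G 2 = ⊥) (hH : derivedSeries H 2 = ⊥) : derivedSeries (G × H) 2 = ⊥ := by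
  rw [eq_bot_iff]
  intro x hx
  have h1 := map_derivedSeries_le_derivedSeries (MonoidHom.fst G H) 2 ⟨x, hx, rfl⟩
  have h2 := map_derivedSeries_le_derivedSeries (MonoidHom.snd G H) 2 ⟨x, hx, rfl⟩
  rw [hG, Subgroup.mem_bot] at h1
  rw [hH, Subgroup.mem_bot] at h2
  rw [Subgroup.mem_bot]
  exact Prod.ext h1 h2

theorem derivedSeries_two_of_surjective {G H : Type*} [Group G] [Group H] (f : G →* H)
    (hf : Function.Surjective f) (h : ∀ x ∈ derivedSeries G 2, f x = 1) :
    derivedSeries H 2 = ⊥ := by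
  rw [← map_derivedSeries_eq hf, eq_bot_iff]
  rintro _ ⟨x, hx, rfl⟩
  rw [Subgroup.mem_bot]
  exact h x hx

variable {V : Type*} (Γ : SimpleGraph V)

/-- The generator of `M_Γ` given by a vertex. -/
def pcGen (v : V) : PCMetabelianGroup Γ := QuotientGroup.mk (FreeMetabelianGroup.gen v)

/-- The canonical surjection from the free group to the free metabelian group. -/
def fmMk (V : Type*) : FreeGroup V →* FreeMetabelianGroup V :=
  QuotientGroup.mk' (derivedSeries (FreeGroup V) 2)

/-- The canonical surjection from the free metabelian group. -/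
def fpMk : FreeMetabelianGroup V →* PCMetabelianGroup Γ :=
  QuotientGroup.mk' (Subgroup.normalClosure (edgeCommutators Γ))

/-- The canonical surjection from the free group. -/
def pcMk : FreeGroup V →* PCMetabelianGroup Γ :=
  (fpMk Γ).comp (fmMk V)

theorem pcMk_of (v : V) : pcMk Γ (FreeGroup.of v) = pcGen Γ v := rfl

theorem pcMk_surjective : Function.Surjective (pcMk Γ) :=
  (QuotientGroup.mk'_surjective (Subgroup.normalClosure (edgeCommutators Γ))).comp
    (QuotientGroup.mk'_surjective (derivedSeries (FreeGroup V) 2))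

theorem pc_metabelian : derivedSeries (PCMetabelianGroup Γ) 2 = ⊥ := by
  refine derivedSeries_two_of_surjective (pcMk Γ) (pcMk_surjective Γ) ?_
  intro x hx
  have : fmMk V x = 1 :=
    (QuotientGroup.eq_one_iff x).2 hx
  show fpMk Γ (fmMk V x) = 1
  rw [this, map_one]

theorem pcGen_comm {u v : V} (h : Γ.Adj u v) : Commute (pcGen Γ u) (pcGen Γ v) := by
  have : fpMk Γ (FreeMetabelianGroup.gen u * FreeMetabelianGroup.gen v *
        (FreeMetabelianGroup.gen u)⁻¹ * (FreeMetabelianGroup.gen v)⁻¹) = 1 :=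
    (QuotientGroup.eq_one_iff _).2 (Subgroup.subset_normalClosure ⟨u, v, h, rfl⟩)
  have h2 : pcGen Γ u * pcGen Γ v * (pcGen Γ u)⁻¹ * (pcGen Γ v)⁻¹ = 1 := by
    rw [map_mul, map_mul, map_mul, map_inv, map_inv] at this
    exact this
  show pcGen Γ u * pcGen Γ v = pcGen Γ v * pcGen Γ u
  rw [mul_inv_eq_one, mul_inv_eq_iff_eq_mul] at h2
  exact h2

theorem pc_closure : Subgroup.closure (Set.range (pcGen Γ)) = ⊤ := by
  have h := congrArg (Subgroup.map (pcMk Γ)) (FreeGroup.closure_range_of V)
  rw [MonoidHom.map_closure, ← Set.range_comp, ← MonoidHom.range_eq_map,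
    MonoidHom.range_eq_top.2 (pcMk_surjective Γ)] at h
  exact h

variable {H : Type*} [Group H]

/-- The universal property of the free metabelian group. -/
def fmLift (hH : derivedSeries H 2 = ⊥) (f : V → H) : FreeMetabelianGroup V →* H :=
  QuotientGroup.lift (derivedSeries (FreeGroup V) 2) (FreeGroup.lift f) (by
      intro x hx
      have h1 := map_derivedSeries_le_derivedSeries (FreeGroup.lift f) 2 ⟨x, hx, rfl⟩
      rw [hH, Subgroup.mem_bot] at h1
      exact h1)

theorem fmLift_gen (hH : derivedSeries H 2 = ⊥) (f : V → H) (v : V) :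
    fmLift hH f (FreeMetabelianGroup.gen v) = f v :=
  FreeGroup.lift_apply_of

/-- The universal property of `M_Γ`. -/
def pcLift (hH : derivedSeries H 2 = ⊥) (f : V → H)
    (hf : ∀ u v, Γ.Adj u v → Commute (f u) (f v)) : PCMetabelianGroup Γ →* H :=
  QuotientGroup.lift (Subgroup.normalClosure (edgeCommutators Γ)) (fmLift hH f) (by
      intro x hx
      refine (Subgroup.normalClosure_le_normal (N := MonoidHom.ker _) ?_) hx
      rintro _ ⟨u, v, h, rfl⟩
      rw [SetLike.mem_coe, MonoidHom.mem_ker]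
      simp only [map_mul, map_inv]
      rw [fmLift_gen, fmLift_gen, (hf u v h).eq]
      group)

theorem pcLift_gen (hH : derivedSeries H 2 = ⊥) (f : V → H)
    (hf : ∀ u v, Γ.Adj u v → Commute (f u) (f v)) (v : V) :
    pcLift Γ hH f hf (pcGen Γ v) = f v :=
  FreeGroup.lift_apply_of

theorem pc_hom_ext {f g : PCMetabelianGroup Γ →* H} (h : ∀ v, f (pcGen Γ v) = g (pcGen Γ v)) :
    f = g := by
  have : f.comp (pcMk Γ) = g.comp (pcMk Γ) := by
    ext v
    exact h v
  refine MonoidHom.ext fun x => ?_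
  obtain ⟨y, hy⟩ := pcMk_surjective Γ x
  rw [← hy]
  exact DFunLike.congr_fun this y

end Metab

section Join

variable {V W : Type*}

/-- The join of two graphs: the disjoint union together with all edges between the two parts. -/
def joinGraph (Γ₁ : SimpleGraph V) (Γ₂ : SimpleGraph W) : SimpleGraph (V ⊕ W) where
  Adj
    | Sum.inl a, Sum.inl b => Γ₁.Adj a b
    | Sum.inr a, Sum.inr b => Γ₂.Adj a b
    | Sum.inl _, Sum.inr _ => True
    | Sum.inr _, Sum.inl _ => True
  symm := ⟨by
    rintro (a | a) (b | b) h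
    · exact h.symm
    · trivial
    · trivial
    · exact h.symm⟩
  loopless := ⟨by
    rintro (a | a) h
    · exact Γ₁.loopless.irrefl a h
    · exact Γ₂.loopless.irrefl a h⟩

variable (Γ₁ : SimpleGraph V) (Γ₂ : SimpleGraph W)

/-- the map from `M_{Γ₁ * Γ₂}` to `M_{Γ₁} × M_{Γ₂}` -/
def joinTo : PCMetabelianGroup (joinGraph Γ₁ Γ₂) →*
    PCMetabelianGroup Γ₁ × PCMetabelianGroup Γ₂ :=
  pcLift _ (derivedSeries_two_prod (pc_metabelian Γ₁) (pc_metabelian Γ₂))
    (Sum.elim (fun v => (pcGen Γ₁ v, 1)) (fun w => (1, pcGen Γ₂ w))) (by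
      rintro (a | a) (b | b) h
      · exact Prod.ext (pcGen_comm Γ₁ h).eq rfl
      · exact Prod.ext ((Commute.one_right _).eq) ((Commute.one_left _).eq)
      · exact Prod.ext ((Commute.one_left _).eq) ((Commute.one_right _).eq)
      · exact Prod.ext rfl (pcGen_comm Γ₂ h).eq)

/-- the embedding of `M_{Γ₁}` -/
def joinInl : PCMetabelianGroup Γ₁ →* PCMetabelianGroup (joinGraph Γ₁ Γ₂) :=
  pcLift _ (pc_metabelian _) (fun v => pcGen _ (Sum.inl v)) (fun _ _ h => pcGen_comm _ h)

/-- the embedding of `M_{Γ₂}` -/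
def joinInr : PCMetabelianGroup Γ₂ →* PCMetabelianGroup (joinGraph Γ₁ Γ₂) :=
  pcLift _ (pc_metabelian _) (fun v => pcGen _ (Sum.inr v)) (fun _ _ h => pcGen_comm _ h)

theorem join_comm (x : PCMetabelianGroup Γ₁) (y : PCMetabelianGroup Γ₂) :
    Commute (joinInl Γ₁ Γ₂ x) (joinInr Γ₁ Γ₂ y) := by
  have hx : x ∈ Subgroup.closure (Set.range (pcGen Γ₁)) := by rw [pc_closure]; trivial
  have hy : y ∈ Subgroup.closure (Set.range (pcGen Γ₂)) := by rw [pc_closure]; trivial
  induction hx using Subgroup.closure_induction with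
  | mem x hx =>
    obtain ⟨v, rfl⟩ := hx
    induction hy using Subgroup.closure_induction with
    | mem y hy =>
      obtain ⟨w, rfl⟩ := hy
      rw [joinInl, joinInr, pcLift_gen, pcLift_gen]
      exact pcGen_comm _ trivial
    | one => rw [map_one]; exact Commute.one_right _
    | mul a b _ _ ha hb => rw [map_mul (joinInr Γ₁ Γ₂)]; exact ha.mul_right hb
    | inv a _ ha => rw [map_inv (joinInr Γ₁ Γ₂)]; exact ha.inv_right
  | one => rw [map_one]; exact Commute.one_left _
  | mul a b _ _ ha hb => rw [map_mul]; exact ha.mul_left hb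
  | inv a _ ha => rw [map_inv]; exact ha.inv_left

/-- the map from `M_{Γ₁} × M_{Γ₂}` to `M_{Γ₁ * Γ₂}` -/
def joinFrom : PCMetabelianGroup Γ₁ × PCMetabelianGroup Γ₂ →*
    PCMetabelianGroup (joinGraph Γ₁ Γ₂) :=
  MonoidHom.noncommCoprod (joinInl Γ₁ Γ₂) (joinInr Γ₁ Γ₂) (join_comm Γ₁ Γ₂)

/-- The partially commutative metabelian group of a join is the direct product. -/
def joinEquiv : PCMetabelianGroup (joinGraph Γ₁ Γ₂) ≃*
    PCMetabelianGroup Γ₁ × PCMetabelianGroup Γ₂ :=
  MonoidHom.toMulEquiv (joinTo Γ₁ Γ₂) (joinFrom Γ₁ Γ₂)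
    (by
      apply pc_hom_ext
      rintro (v | w)
      · simp [joinTo, joinFrom, pcLift_gen, joinInl]
      · simp [joinTo, joinFrom, pcLift_gen, joinInr])
    (by
      have h1 : (joinTo Γ₁ Γ₂).comp (joinInl Γ₁ Γ₂) = MonoidHom.inl _ _ := by
        apply pc_hom_ext
        intro v
        simp [joinTo, joinInl, pcLift_gen]
      have h2 : (joinTo Γ₁ Γ₂).comp (joinInr Γ₁ Γ₂) = MonoidHom.inr _ _ := by
        apply pc_hom_ext
        intro v
        simp [joinTo, joinInr, pcLift_gen]
      refine MonoidHom.ext ?_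
      rintro ⟨x, y⟩
      have e1 := DFunLike.congr_fun h1 x
      have e2 := DFunLike.congr_fun h2 y
      simp only [MonoidHom.comp_apply, MonoidHom.inl_apply, MonoidHom.inr_apply] at e1 e2
      simp [joinFrom, e1, e2])

theorem pc_infinite {V : Type*} [Nonempty V] (Γ : SimpleGraph V) :
    Infinite (PCMetabelianGroup Γ) := by
  let f : PCMetabelianGroup Γ →* Multiplicative ℤ :=
    pcLift Γ derivedSeries_two_comm (fun _ => Multiplicative.ofAdd 1) (fun _ _ _ => Commute.all _ _)
  have hf : Function.Surjective f := by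
    intro z
    obtain ⟨v⟩ := ‹Nonempty V›
    refine ⟨pcGen Γ v ^ (Multiplicative.toAdd z), ?_⟩
    rw [map_zpow, pcLift_gen, ← ofAdd_zsmul]
    simp
  exact Infinite.of_surjective f hf

end Join

end Pool.Agent.H53
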